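import Mathlib
import Pool.Agent.Helper203.S10
import Pool.Agent.Helper203.HStmt

set_option autoImplicit false

open Complex Metric Set Filter MeasureTheory ContinuousLinearMap
open scoped Real Topology ComplexConjugate ENNReal

open Pool.Agent.Helper203.Hardy

namespace Pool.Agent.Results.MP_a5725d_an.SATCharacterisation

theorem isMz_Mz : IsMz Mz := fun f _ hz => ev_Mz f (mem_ball_zero_iff.1 hz)

theorem eval_inj {f g : HS} (h : ∀ z ∈ ball (0 : ℂ) 1, eval f z = eval g z) : f = g :=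
  ev_injective (f := f) (g := g) h

theorem isMz_unique {S S' : Op} (h : IsMz S) (h' : IsMz S') : S = S' := by
  ext1 f
  apply eval_inj
  intro z hz
  exact (h f z hz).trans (h' f z hz).symm

/-- Characterisation of the strongly asymptotically Toeplitz composition operators: `C_φ` is SAT
exactly when `φ` is the identity, or `φ` is not a rotation and at almost every point of the circle
where `|φ| = 1` one has `|φ(rζ)| ≥ r` for all `r` in `[0,1)`; equivalently, the angular derivative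
exists there and has modulus at most one. -/
theorem result (φ : ℂ → ℂ) (hφ : DifferentiableOn ℂ φ (ball 0 1))
    (hm : MapsTo φ (ball (0 : ℂ) 1) (ball 0 1)) :
    (∀ᵐ θ ∂mT, Tendsto (fun r : ℝ => φ (circleMap 0 r θ)) (𝓝[<] 1) (𝓝 (bv φ θ))) ∧
    (∃! S : Op, IsMz S) ∧
    (∃! C : Op, IsCompOp φ C) ∧
    ∀ S C : Op, IsMz S → IsCompOp φ C →
      List.TFAE [
        SAT S C,
        (∀ z ∈ ball (0 : ℂ) 1, φ z = z) ∨
          ((¬ ∃ c : ℂ, ‖c‖ = 1 ∧ ∀ z ∈ ball (0 : ℂ) 1, φ z = c * z) ∧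
            ∀ᵐ θ ∂mT, ‖bv φ θ‖ = 1 →
              ∀ r : ℝ, 0 ≤ r → r < 1 → r ≤ ‖φ (circleMap 0 r θ)‖),
        (∀ z ∈ ball (0 : ℂ) 1, φ z = z) ∨
          ((¬ ∃ c : ℂ, ‖c‖ = 1 ∧ ∀ z ∈ ball (0 : ℂ) 1, φ z = c * z) ∧
            ∀ᵐ θ ∂mT, ‖bv φ θ‖ = 1 → ∃ d : ℝ, d ≤ 1 ∧
              Tendsto (fun r : ℝ => (1 - ‖φ (circleMap 0 r θ)‖) / (1 - r)) (𝓝[<] 1) (𝓝 d))] := by
  refine ⟨bv_tendsto hφ hm, ⟨Mz, isMz_Mz, fun S hS => isMz_unique hS isMz_Mz⟩, ?_, ?_⟩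
  · obtain ⟨C, hC⟩ := exists_comp hφ hm
    refine ⟨C, hC, fun C' hC' => ?_⟩
    ext1 f
    apply eval_inj
    intro z hz
    exact (hC' f z hz).trans (hC f z hz).symm
  · intro S C hS hC
    have hSe : S = Mz := isMz_unique hS isMz_Mz
    have hC' : ∀ f : H2, ∀ z ∈ ball (0 : ℂ) 1, ev ((id C : H2 →L[ℂ] H2) f) z = ev f (φ z) := hC
    have hU : SAT S C ↔
        ∃ L : H2 →L[ℂ] H2, ∀ f : H2,
          Tendsto (fun n => compress (id C : H2 →L[ℂ] H2) n f) atTop (𝓝 (L f)) := by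
      rw [hSe]
      exact Iff.rfl
    rw [hU]
    tfae_have 1 ↔ 2 := sat_iff hφ hm hC'
    tfae_have 2 ↔ 3 := by
      have h : (∀ᵐ θ ∂mT, ‖bv φ θ‖ = 1 →
            ∀ r : ℝ, 0 ≤ r → r < 1 → r ≤ ‖φ (circleMap 0 r θ)‖) ↔
          (∀ᵐ θ ∂mT, ‖bv φ θ‖ = 1 → ∃ d : ℝ, d ≤ 1 ∧
            Tendsto (fun r : ℝ => (1 - ‖φ (circleMap 0 r θ)‖) / (1 - r)) (𝓝[<] 1) (𝓝 d)) := by
        apply eventually_congr
        apply Eventually.of_forall
        intro θ
        exact imp_congr_right fun _ => hr_iff hφ hm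
      rw [h]
    tfae_finish

end Pool.Agent.Results.MP_a5725d_an.SATCharacterisation
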